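import Pool.Agent.Helper29.CPB.Block
import Pool.Agent.Helper29.CPB.Idem

/-!
# A maximal splitting correspondence
-/

namespace Pool.Agent.Helper37.CPB

open Pool.Agent.Helper29.CPB Polynomial Module

universe u v

variable {F : Type u} [Field F] [CharZero F]

section

variable {X : Variety.{u, v} F} {i w : ℕ} {R : Module.End F X.H}

/-- admissible `ϑ`: it splits off a block of strings inside `R` -/
structure Adm (X : Variety.{u, v} F) (w : ℕ) (R ϑ : Module.End F X.H) : Prop where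
  mem : ϑ ∈ X.corr (-w)
  left : R * ϑ = ϑ
  right : ϑ * R = ϑ
  split : ϑ * X.L ^ w * ϑ = ϑ

lemma adm_zero (X : Variety.{u, v} F) (w : ℕ) (R : Module.End F X.H) : Adm X w R 0 :=
  ⟨(X.corr _).zero_mem, by simp, by simp, by simp⟩

lemma exists_max (X : Variety.{u, v} F) (w : ℕ) (R : Module.End F X.H) :
    ∃ ϑ, Adm X w R ϑ ∧ ∀ ϑ', Adm X w R ϑ' →
      finrank F (LinearMap.range (ϑ' * X.L ^ w)) ≤ finrank F (LinearMap.range (ϑ * X.L ^ w)) := by
  classical
  let P : ℕ → Prop := fun n => ∃ ϑ, Adm X w R ϑ ∧ finrank F (LinearMap.range (ϑ * X.L ^ w)) = n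
  have hb : ∀ n, P n → n ≤ finrank F X.H := by
    rintro n ⟨ϑ, _, rfl⟩
    exact Submodule.finrank_le _
  have h0 : ∃ n, P n := ⟨_, 0, adm_zero X w R, rfl⟩
  obtain ⟨n, hn⟩ := h0
  have hP := Nat.findGreatest_spec (hb n hn) hn
  obtain ⟨ϑ, hϑ, hr⟩ := hP
  refine ⟨ϑ, hϑ, ?_⟩
  intro ϑ' hϑ'
  rw [hr]
  exact Nat.le_findGreatest (hb _ ⟨ϑ', hϑ', rfl⟩) ⟨ϑ', hϑ', rfl⟩

/-- `R sgn = ± R` -/
lemma mul_sgn (supp : Supp X i R) : R * X.sgn = ((-1 : F) ^ i) • R := by
  apply X.ext_homog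
  intro j x hx
  rw [Module.End.mul_apply, X.sgn_apply hx, map_smul, LinearMap.smul_apply]
  by_cases hj : Even (j - i) ∧ (i : ℤ) ≤ j ∧ j ≤ 2 * X.dim - i
  · obtain ⟨⟨t, ht⟩, h2, _⟩ := hj
    have e : j.natAbs = i + 2 * t.natAbs := by omega
    rw [e, pow_add, pow_mul, neg_one_sq, one_pow, mul_one]
  · have h0 : R x = 0 := by
      rw [← hx, ← Module.End.mul_apply, supp j hj, LinearMap.zero_apply]
    rw [h0, smul_zero, smul_zero]

/-- an algebraic operator of degree `0` inside `R` has a rational trace -/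
lemma trace_rat (supp : Supp X i R) {f : Module.End F X.H} (hf : f ∈ X.corr 0) (h : f * R = f) :
    ∃ q : ℚ, LinearMap.trace F X.H f = q := by
  obtain ⟨q, hq⟩ := X.corr_rat f hf
  have e1 : f * X.sgn = ((-1 : F) ^ i) • f := by
    rw [← h, mul_assoc, mul_sgn supp, mul_smul_comm, h]
  have e2 : LinearMap.trace F X.H (f * X.sgn) = q := hq
  rw [e1, map_smul, smul_eq_mul] at e2
  refine ⟨(-1) ^ i * q, ?_⟩
  push_cast
  rw [← e2, ← mul_assoc, ← mul_pow, neg_one_mul, neg_neg, one_pow, one_mul]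

theorem exists_maximal (X : Variety.{u, v} F) (i w : ℕ) (hi : i + w = X.dim)
    (R : Module.End F X.H) (hR : R ∈ X.corr 0) (hid : R * R = R) (hL : R * X.L = X.L * R)
    (supp : Supp X i R) :
    ∃ ϑ ∈ X.corr (-w), R * ϑ = ϑ ∧ ϑ * R = ϑ ∧ ϑ * X.L ^ w * ϑ = ϑ ∧
      ∀ θ ∈ X.corr (-w),
        LinearMap.trace F X.H ((R - blockF X ϑ w) * θ * (R - blockF X ϑ w) * X.L ^ w) = 0 := by
  obtain ⟨ϑ, A, hmax⟩ := exists_max X w R
  refine ⟨ϑ, A.mem, A.left, A.right, A.split, ?_⟩
  intro θ hθ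
  by_contra htr
  -- the complement
  set R' := R - blockF X ϑ w with hR'
  have c1 : R * R' = R' := by
    rw [hR', mul_sub, hid, mul_blockF hL A.left]
  have c2 : R' * R = R' := by
    rw [hR', sub_mul, hid, blockF_mul hL A.right]
  have c3 : R' * R' = R' := by
    rw [hR', sub_mul, mul_sub, mul_sub, hid, mul_blockF hL A.left, blockF_mul hL A.right,
      blockF_idem hi supp A.mem A.left A.right A.split, sub_self, sub_zero]
  have c4 : R' * ϑ = 0 := by
    rw [hR', sub_mul, A.left, blockF_mul_theta hi supp A.mem A.left A.right A.split, sub_self]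
  have c5 : ϑ * R' = 0 := by
    rw [hR', mul_sub, A.right, theta_mul_blockF hi supp A.mem A.left A.right A.split, sub_self]
  have c6 : R' * X.L = X.L * R' := by
    rw [hR', sub_mul, mul_sub, hL, blockF_comm hi hL supp A.left A.right]
  have c7 : R' * X.L ^ w = X.L ^ w * R' := comm_Lpow c6 w
  have c8 : R' ∈ X.corr 0 := (X.corr 0).sub_mem hR (blockF_mem A.mem)
  -- the operator
  set y' := R' * θ * R' with hy'
  have y1 : R' * y' = y' := by rw [hy', ← mul_assoc, ← mul_assoc, c3]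
  have y2 : y' * R' = y' := by rw [hy', mul_assoc, c3]
  have y3 : y' ∈ X.corr (-w) :=
    X.corr_mul' (r := -w) (s := 0) (by ring) (X.corr_mul' (r := 0) (s := -w) (by ring) c8 hθ) c8
  set y := y' * X.L ^ w with hy
  have z1 : R' * y = y := by rw [hy, ← mul_assoc, y1]
  have z2 : y * R' = y := by rw [hy, mul_assoc, ← c7, ← mul_assoc, y2]
  have z3 : y ∈ X.corr 0 := X.corr_mul' (by ring) y3 (X.Lpow_corr w)
  have z4 : y * R = y := by rw [← z2, mul_assoc, c2]
  have hrat : ∀ n, 1 ≤ n → ∃ q : ℚ, LinearMap.trace F X.H (y ^ n) = (q : F) := by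
    intro n hn
    apply trace_rat supp (X.corr_pow_zero z3 n)
    obtain ⟨m, rfl⟩ : ∃ m, n = m + 1 := ⟨n - 1, by omega⟩
    rw [pow_succ, mul_assoc, z4]
  have hnn : ¬ IsNilpotent y := by
    intro hnil
    apply htr
    exact (LinearMap.isNilpotent_trace_of_isNilpotent hnil).eq_zero
  obtain ⟨e, he1, he2⟩ := exists_idem y hrat hnn
  set p := aeval y (e.map (algebraMap ℚ F)) with hp
  have hpc : p * y = y * p := by
    have h1 : y = aeval y (Polynomial.X : F[X]) := by simp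
    calc p * y = aeval y (e.map (algebraMap ℚ F)) * aeval y (Polynomial.X : F[X]) := by rw [← h1]
      _ = aeval y (Polynomial.X : F[X]) * aeval y (e.map (algebraMap ℚ F)) := by
        rw [← map_mul, ← map_mul, mul_comm]
      _ = y * p := by rw [← h1]
  have hpm : p ∈ X.corr 0 := X.corr_aeval z3 e
  set g := p * y with hg
  have g1 : R' * g = g := by rw [hpc, ← mul_assoc, z1]
  have g2 : g * R' = g := by rw [hg, mul_assoc, z2]
  have g3 : g ∈ X.corr 0 := X.corr_mul' (by ring) hpm z3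
  have g4 : g * ϑ = 0 := by rw [← g2, mul_assoc, c4, mul_zero]
  set h := g * p * y' with hh
  have h1 : R' * h = h := by
    rw [hh, mul_assoc g, ← mul_assoc R' g, g1]
  have h2 : h * R' = h := by rw [hh, mul_assoc, y2]
  have h3 : h ∈ X.corr (-w) :=
    X.corr_mul' (by ring) (X.corr_mul' (r := 0) (s := 0) (t := 0) (by ring) g3 hpm) y3
  have h4 : h * X.L ^ w = g := by
    rw [hh, mul_assoc, ← hy, mul_assoc, ← hg, he1]
  have h5 : g * h = h := by rw [hh, mul_assoc g, ← mul_assoc g g, he1]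
  have h6 : R * h = h := by rw [← h1, ← mul_assoc, c1]
  have h7 : h * R = h := by rw [← h2, mul_assoc, c2]
  have h8 : ϑ * X.L ^ w * h = 0 := by
    rw [← h1, mul_assoc, ← mul_assoc (X.L ^ w), ← c7, mul_assoc, ← mul_assoc, c5, zero_mul]
  have hadm : Adm X w R (ϑ + h) := by
    refine ⟨(X.corr _).add_mem A.mem h3, ?_, ?_, ?_⟩
    · rw [mul_add, A.left, h6]
    · rw [add_mul, A.right, h7]
    · rw [add_mul, h4, mul_add, add_mul, add_mul, A.split, g4, h5, h8]
      abel
  have hle := hmax _ hadm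
  have if1 : (ϑ * X.L ^ w) * (ϑ * X.L ^ w) = ϑ * X.L ^ w := by
    rw [← mul_assoc, A.split]
  have if2 : ((ϑ + h) * X.L ^ w) * ((ϑ + h) * X.L ^ w) = (ϑ + h) * X.L ^ w := by
    rw [← mul_assoc, hadm.split]
  have t1 := trace_idem _ if1
  have t2 := trace_idem _ if2
  have t3 := trace_idem _ he1
  have t4 : LinearMap.trace F X.H ((ϑ + h) * X.L ^ w) =
      LinearMap.trace F X.H (ϑ * X.L ^ w) + LinearMap.trace F X.H g := by
    rw [add_mul, h4, map_add]
  rw [t1, t2, t3] at t4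
  have t5 : finrank F (LinearMap.range ((ϑ + h) * X.L ^ w)) =
      finrank F (LinearMap.range (ϑ * X.L ^ w)) + finrank F (LinearMap.range g) := by
    exact_mod_cast t4
  have t6 : finrank F (LinearMap.range g) = 0 := by omega
  rw [Submodule.finrank_eq_zero] at t6
  exact he2 (LinearMap.range_eq_bot.mp t6)

end

end Pool.Agent.Helper37.CPB
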